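import Pool.Agent.R547.EQ.PetersenC2

set_option autoImplicit false

/-!
# Equality testing on the Petersen graph: `f(P) = 5 < 11 / 2 = c₂(P) / 2`
-/

namespace Pool.Agent.Results.MP_01a55a_lc.PetersenGap

open Filter Topology
open Pool.Agent.R547.EQ

/-- There is a connected graph (the Petersen graph) with `c₂(G) = 11` and `f(G) = 5 < 11 / 2`. -/
theorem result : ∃ G : SimpleGraph (Fin 10), G.Connected ∧ c2 G = 11 ∧
    Tendsto (fun n : ℕ => (eqCost G n : ℝ) / n) atTop (𝓝 5) ∧
    Tendsto (fun n : ℕ => (eqCostOne G n : ℝ) / n) atTop (𝓝 5) := by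
  have h := tendsto_eqCost petersen petersen_connected (fun u => exists_ne u)
  rw [petersen_fc] at h
  exact ⟨petersen, petersen_connected, petersen_c2, h⟩

end Pool.Agent.Results.MP_01a55a_lc.PetersenGap
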